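import Mathlib
import Pool.Agent.H.MP_b2838e_lc.Def
import Pool.Agent.H.MP_b2838e_lc.C.BDef
import Pool.Agent.H.MP_b2838e_lc.C.VBai

/-!
# Reduction of colourings of partitions with the property of Baire without forced growth
-/

set_option autoImplicit false

namespace Pool.Agent.Results.MP_b2838e_lc.BaireReduction

open Pool.Agent.DR Pool.Agent.DC

/-- There is a computable function `g` such that for every colouring `c` of `(ℕ)^k` with finitely
many colours which has the property of Baire, and for every function `h`, there is a partition `x` of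
`ℕ` into infinitely many pieces such that, for infinitely many `m`, every piece `i` of `x` with
`m ≤ i ≤ h m` has an element `≤ g i`, and `c` is reduced on `x`: if `y` and `z` in `(x)^k` agree on
`[0, t]` and all `k` pieces have begun there, then they have the same colour. -/
theorem result : ∃ g : ℕ → ℕ, Computable g ∧ ∀ (k l : ℕ) (c : (ℕ → ℕ) → Fin l), BaireCol k c →
    ∀ h : ℕ → ℕ, ∃ x, InfPart x ∧
      (∀ m₀, ∃ m ≥ m₀, ∀ i, m ≤ i → i ≤ h m → ∃ n ≤ g i, x n = i) ∧
      ∀ y z t, KPart k y → KPart k z → Coarser y x → Coarser z x → (∀ n ≤ t, y n = z n) →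
        (∀ i < k, ∃ n ≤ t, y n = i) → c y = c z :=
  Pool.Agent.DC.baire_reductionV

end Pool.Agent.Results.MP_b2838e_lc.BaireReduction
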