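import Mathlib
import Pool.Agent.H.MP_b2838e_lc.Def
import Pool.Agent.H.MP_b2838e_lc.B.Bd
import Pool.Agent.H.MP_b2838e_lc.D.Sp
import Pool.Agent.H.MP_b2838e_lc.D.Ss

/-!
# How sparse are the homogeneous partitions of colourings of the partitions into two pieces?
-/

set_option autoImplicit false

namespace Pool.Agent.Results.MP_b2838e_lc.ManyHomogeneous

open Pool.Agent.DR Pool.Agent.DB

/-- There is a computable function `g` such that every Borel colouring of `(ℕ)^2` with `l` colours has
`l` homogeneous partitions such that for all large `i` the piece `i` of one of them has an element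
`≤ g i`. The number `l` is the least possible: for every function `g` and every `l` there is a
continuous colouring of `(ℕ)^2` with `l + 1` colours such that for any `l` homogeneous partitions there
are infinitely many `i` for which the piece `i` of none of them has an element `≤ g i`. -/
theorem result :
    (∃ g : ℕ → ℕ, Computable g ∧ ∀ (l : ℕ) (c : (ℕ → ℕ) → Fin l), Bor 2 c →
      ∃ x : Fin l → ℕ → ℕ, (∀ j, ∃ i, Homog 2 c (x j) i) ∧
        ∃ i₀, ∀ i ≥ i₀, ∃ j, ∃ n ≤ g i, x j n = i) ∧
    ∀ (g : ℕ → ℕ) (l : ℕ), ∃ c : (ℕ → ℕ) → Fin (l + 1), Cont 2 c ∧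
      ∀ x : Fin l → ℕ → ℕ, (∀ j, ∃ i, Homog 2 c (x j) i) →
        ∀ i₀, ∃ i ≥ i₀, ∀ j, ∀ n ≤ g i, x j n ≠ i :=
  ⟨Pool.Agent.DD.many, Pool.Agent.DD.sharp⟩

end Pool.Agent.Results.MP_b2838e_lc.ManyHomogeneous
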