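import Mathlib
import Pool.Agent.H.MP_b2838e_lc.Def
import Pool.Agent.H.MP_b2838e_lc.B.Bd
import Pool.Agent.H.MP_b2838e_lc.K.FiK

/-!
# Reduction of Borel colourings of partitions without loss of growth
-/

set_option autoImplicit false

namespace Pool.Agent.Results.MP_b2838e_lc.Reduction

open Pool.Agent.DR Pool.Agent.DB

/-- There is a computable function `g` such that for every sequence of Borel colourings `c n` of
`(ℕ)^(k n)` with `l n` colours there is a partition `x` of `ℕ` into infinitely many pieces whose piece
`i` has an element `≤ g i`, for all `i`, and each `c n` is reduced on `x` beyond some `p`: if `y` and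
`z` in `(x)^(k n)` agree on `[0, t]`, all `k n` pieces have begun there, and `[0, p]` is contained in
the first piece, then they have the same colour. -/
theorem result : ∃ g : ℕ → ℕ, Computable g ∧
    ∀ (k l : ℕ → ℕ) (c : (n : ℕ) → (ℕ → ℕ) → Fin (l n)), (∀ n, Bor (k n) (c n)) →
      ∃ x, InfPart x ∧ (∀ i, ∃ m ≤ g i, x m = i) ∧
        ∀ n, ∃ p, ∀ y z t, KPart (k n) y → KPart (k n) z → Coarser y x → Coarser z x →
          (∀ m ≤ p, y m = 0) → (∀ m ≤ t, y m = z m) → (∀ i < k n, ∃ m ≤ t, y m = i) →
            c n y = c n z :=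
  Pool.Agent.DK.reductionSeq

end Pool.Agent.Results.MP_b2838e_lc.Reduction
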