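import Mathlib
import Pool.Agent.H.MP_b2838e_lc.B.Cmp

/-!
# The Dual Ramsey Theorem with two pieces and Borel colours does not code fast growing functions
-/

set_option autoImplicit false

namespace Pool.Agent.Results.MP_b2838e_lc.TwoPieces

open Pool.Agent.DR Pool.Agent.DB

/-- Let `F e` be functionals. There are a function `g` and, for all `k ≥ 3`, continuous colourings
`d k` of `(ℕ)^k` with two colours such that every colouring of `(ℕ)^2` with finitely many Borel colours
has a homogeneous partition `x` for which no `F e` gives a total function which dominates `g`, and no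
`F e` gives a partition which is homogeneous for `d k` for some `k ≥ 3`. -/
theorem result (F : ℕ → List ℕ → ℕ → Option ℕ) : ∃ (g : ℕ → ℕ) (d : ℕ → (ℕ → ℕ) → Fin 2),
    (∀ k ≥ 3, Cont k (d k)) ∧ ∀ (l : ℕ) (c : (ℕ → ℕ) → Fin l), Bor 2 c → ∃ x j, Homog 2 c x j ∧
      ∀ e, (¬ ∃ h : ℕ → ℕ, (∀ t, Val (F e) x t (h t)) ∧ ∃ t₀, ∀ t ≥ t₀, g t ≤ h t) ∧
        ∀ k ≥ 3, ¬ ∃ z i, (∀ n, Val (F e) x n (z n)) ∧ Homog k (d k) z i :=
  twoC F

end Pool.Agent.Results.MP_b2838e_lc.TwoPieces
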